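import Mathlib

/-!
# Almost every real number satisfies `q (log q)^c ‖q α‖ ≥ κ` (`c > 1`)

Part T3 of the project PE of helper587 (MP_0ea415_nt).
-/

set_option autoImplicit false

namespace Pool.Agent.H587.PE

open MeasureTheory Filter

/-- the weight -/
noncomputable def wt (c : ℝ) (q : ℕ) : ℝ := q * ((Nat.log 2 q : ℝ) + 1) ^ c

theorem wt_pos (c : ℝ) {q : ℕ} (hq : 1 ≤ q) : 0 < wt c q := by
  unfold wt
  have h1 : (0 : ℝ) < q := by exact_mod_cast hq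
  have h2 : (0 : ℝ) < (Nat.log 2 q : ℝ) + 1 := by positivity
  exact mul_pos h1 (Real.rpow_pos_of_pos h2 c)

theorem wt_nonneg (c : ℝ) (q : ℕ) : 0 ≤ wt c q := by
  unfold wt
  positivity

theorem wt_mono (c : ℝ) (hc : 0 ≤ c) {m n : ℕ} (h : m ≤ n) : wt c m ≤ wt c n := by
  unfold wt
  have h1 : (m : ℝ) ≤ n := by exact_mod_cast h
  have h2 : ((Nat.log 2 m : ℕ) : ℝ) ≤ (Nat.log 2 n : ℕ) := by
    exact_mod_cast Nat.log_mono_right h
  have h3 : (0 : ℝ) ≤ (Nat.log 2 m : ℝ) + 1 := by positivity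
  exact mul_le_mul h1 (Real.rpow_le_rpow h3 (by linarith) hc) (Real.rpow_nonneg h3 c)
    (Nat.cast_nonneg n)

theorem summable_wt (c : ℝ) (hc : 1 < c) : Summable fun q : ℕ => (wt c q)⁻¹ := by
  have h1 : (Summable fun k : ℕ => (2 : ℝ) ^ k * (wt c (2 ^ k))⁻¹) ↔
      Summable fun q : ℕ => (wt c q)⁻¹ :=
    summable_condensed_iff_of_nonneg (fun n => inv_nonneg.2 (wt_nonneg c n))
      (fun m n hm hmn => inv_anti₀ (wt_pos c hm) (wt_mono c (by linarith) hmn))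
  rw [← h1]
  have h2 : (fun k : ℕ => (2 : ℝ) ^ k * (wt c (2 ^ k))⁻¹) =
      fun k : ℕ => 1 / (((k + 1 : ℕ) : ℝ)) ^ c := by
    funext k
    unfold wt
    rw [Nat.log_pow one_lt_two]
    have h3 : (2 : ℝ) ^ k ≠ 0 := by positivity
    push_cast
    rw [mul_inv, ← mul_assoc, mul_inv_cancel₀ h3, one_mul, one_div]
  rw [h2]
  exact (summable_nat_add_iff (f := fun k : ℕ => 1 / ((k : ℝ)) ^ c) 1).2
    (Real.summable_one_div_nat_rpow.2 hc)

/-- the exceptional sets -/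
def Bq (c : ℝ) (M q : ℕ) : Set ℝ :=
  {α | |α| ≤ M ∧ |q * α - round (q * α)| < (wt c q)⁻¹}

theorem Bq_subset (c : ℝ) (M : ℕ) {q : ℕ} (hq : 1 ≤ q) :
    Bq c M q ⊆ ⋃ a ∈ Finset.Icc (-((q * M : ℕ) : ℤ) - 1) ((q * M : ℕ) + 1 : ℤ),
      Metric.ball ((a : ℝ) / q) ((wt c q)⁻¹ / q) := by
  intro α hα
  obtain ⟨h1, h2⟩ := hα
  have hq0 : (0 : ℝ) < q := by exact_mod_cast hq
  rw [Set.mem_iUnion₂]
  have h3 : |(q : ℝ) * α| ≤ q * M := by
    rw [abs_mul, abs_of_pos hq0]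
    exact mul_le_mul_of_nonneg_left h1 hq0.le
  have h4 := abs_sub_round ((q : ℝ) * α)
  rw [abs_le] at h3 h4
  refine ⟨round ((q : ℝ) * α), ?_, ?_⟩
  · rw [Finset.mem_Icc]
    constructor
    · have h5 : ((-((q * M : ℕ) : ℤ) - 1 : ℤ) : ℝ) ≤ (round ((q : ℝ) * α) : ℝ) := by
        push_cast
        linarith
      exact_mod_cast h5
    · have h5 : (round ((q : ℝ) * α) : ℝ) ≤ (((q * M : ℕ) + 1 : ℤ) : ℝ) := by
        push_cast
        linarith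
      exact_mod_cast h5
  · rw [Metric.mem_ball, Real.dist_eq, lt_div_iff₀ hq0]
    have h5 : |α - (round ((q : ℝ) * α) : ℝ) / q| * q = |q * α - round ((q : ℝ) * α)| := by
      rw [← abs_of_pos hq0, ← abs_mul, abs_of_pos hq0]
      congr 1
      field_simp
    rw [h5]
    exact h2

theorem vol_Bq (c : ℝ) (M : ℕ) {q : ℕ} (hq : 1 ≤ q) :
    volume (Bq c M q) ≤ ENNReal.ofReal ((4 * M + 6) * (wt c q)⁻¹) := by
  have hq0 : (0 : ℝ) < q := by exact_mod_cast hq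
  have hq1 : (1 : ℝ) ≤ q := by exact_mod_cast hq
  have hw : 0 ≤ (wt c q)⁻¹ := inv_nonneg.2 (wt_nonneg c q)
  calc volume (Bq c M q)
      ≤ volume (⋃ a ∈ Finset.Icc (-((q * M : ℕ) : ℤ) - 1) ((q * M : ℕ) + 1 : ℤ),
          Metric.ball ((a : ℝ) / q) ((wt c q)⁻¹ / q)) := measure_mono (Bq_subset c M hq)
    _ ≤ ∑ a ∈ Finset.Icc (-((q * M : ℕ) : ℤ) - 1) ((q * M : ℕ) + 1 : ℤ),
          volume (Metric.ball ((a : ℝ) / q) ((wt c q)⁻¹ / q)) := measure_biUnion_finset_le _ _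
    _ = ∑ a ∈ Finset.Icc (-((q * M : ℕ) : ℤ) - 1) ((q * M : ℕ) + 1 : ℤ),
          ENNReal.ofReal (2 * ((wt c q)⁻¹ / q)) := by
        refine Finset.sum_congr rfl fun a _ => ?_
        rw [Real.volume_ball]
    _ = ((2 * (q * M) + 3 : ℕ) : ENNReal) * ENNReal.ofReal (2 * ((wt c q)⁻¹ / q)) := by
        rw [Finset.sum_const, Int.card_Icc, nsmul_eq_mul]
        congr 2
        omega
    _ = ENNReal.ofReal ((2 * (q * M) + 3 : ℕ) * (2 * ((wt c q)⁻¹ / q))) := by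
        rw [ENNReal.ofReal_mul (Nat.cast_nonneg _), ENNReal.ofReal_natCast]
    _ ≤ ENNReal.ofReal ((4 * M + 6) * (wt c q)⁻¹) := by
        refine ENNReal.ofReal_le_ofReal ?_
        push_cast
        have h1 : (2 * ((q : ℝ) * M) + 3) * (2 * ((wt c q)⁻¹ / q)) =
            (4 * M + 6 / q) * (wt c q)⁻¹ := by
          field_simp
          ring
        rw [h1]
        refine mul_le_mul_of_nonneg_right ?_ hw
        have h2 : 6 / (q : ℝ) ≤ 6 := by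
          rw [div_le_iff₀ hq0]
          linarith
        linarith

theorem tsum_Bq (c : ℝ) (hc : 1 < c) (M : ℕ) :
    ∑' q : ℕ, volume (Bq c M (q + 1)) ≠ ⊤ := by
  have h1 : Summable fun q : ℕ => (4 * (M : ℝ) + 6) * (wt c (q + 1))⁻¹ :=
    (((summable_nat_add_iff 1).2 (summable_wt c hc))).mul_left _
  have h2 := h1.tsum_ofReal_ne_top
  refine ne_top_of_le_ne_top h2 ?_
  exact ENNReal.tsum_le_tsum fun q => vol_Bq c M (Nat.le_add_left 1 q)

theorem fin_min (f : ℕ → ℝ) (hf : ∀ q, 1 ≤ q → 0 < f q) (N : ℕ) :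
    ∃ κ : ℝ, 0 < κ ∧ κ ≤ 1 ∧ ∀ q, 1 ≤ q → q < N → κ ≤ f q := by
  induction N with
  | zero => exact ⟨1, one_pos, le_rfl, fun q _ h => absurd h (Nat.not_lt_zero q)⟩
  | succ N ih =>
    obtain ⟨κ, h1, h2, h3⟩ := ih
    rcases Nat.eq_zero_or_pos N with h | h
    · refine ⟨κ, h1, h2, fun q hq hq' => ?_⟩
      omega
    · refine ⟨min κ (f N), lt_min h1 (hf N h), (min_le_left _ _).trans h2, fun q hq hq' => ?_⟩
      rcases Nat.lt_succ_iff_lt_or_eq.1 hq' with h4 | h4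
      · exact (min_le_left _ _).trans (h3 q hq h4)
      · rw [h4]
        exact min_le_right _ _

theorem ae_dioph (c : ℝ) (hc : 1 < c) : ∀ᵐ α : ℝ, ∃ κ : ℝ, 0 < κ ∧ ∀ q : ℕ, 1 ≤ q →
    κ ≤ q * ((Nat.log 2 q : ℝ) + 1) ^ c * |q * α - round (q * α)| := by
  have h1 : ∀ᵐ α : ℝ, ∀ M : ℕ, ∀ᶠ q : ℕ in atTop, α ∉ Bq c M (q + 1) :=
    ae_all_iff.2 fun M => ae_eventually_notMem (tsum_Bq c hc M)
  have h2 : ∀ᵐ α : ℝ, α ∉ Set.range ((↑) : ℚ → ℝ) :=
    (Set.countable_range ((↑) : ℚ → ℝ)).ae_notMem volume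
  filter_upwards [h1, h2] with α h3 h4
  obtain ⟨M, hM⟩ := exists_nat_ge |α|
  obtain ⟨N, hN⟩ := eventually_atTop.1 (h3 M)
  have hpos : ∀ q : ℕ, 1 ≤ q → 0 < wt c q * |q * α - round (q * α)| := by
    intro q hq
    refine mul_pos (wt_pos c hq) (abs_pos.2 fun h => h4 ?_)
    have hq0 : (q : ℝ) ≠ 0 := by
      have : (0 : ℝ) < q := by exact_mod_cast hq
      exact this.ne'
    refine ⟨(round ((q : ℝ) * α) : ℚ) / q, ?_⟩
    push_cast
    rw [div_eq_iff hq0]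
    linarith
  obtain ⟨κ, k1, k2, k3⟩ := fin_min _ hpos (N + 1)
  refine ⟨κ, k1, fun q hq => ?_⟩
  change κ ≤ wt c q * |q * α - round (q * α)|
  rcases Nat.lt_or_ge q (N + 1) with h5 | h5
  · exact k3 q hq h5
  · have h6 := hN (q - 1) (by omega)
    rw [Nat.sub_add_cancel hq] at h6
    have h7 : (wt c q)⁻¹ ≤ |q * α - round (q * α)| := by
      by_contra hcon
      exact h6 ⟨hM, not_le.1 hcon⟩
    refine k2.trans ?_
    rw [← mul_inv_cancel₀ (wt_pos c hq).ne']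
    exact mul_le_mul_of_nonneg_left h7 (wt_nonneg c q)

end Pool.Agent.H587.PE
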