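import Mathlib

set_option autoImplicit false

namespace Pool.Agent.H587.PE

theorem plane_core {ι : Type} (S : Finset ι) (f g h : ι → ℝ) (τ : ℝ) (hτ : 0 < τ)
    (hf : ∀ z ∈ S, |f z| ≤ 1) (hg : ∀ z ∈ S, |g z| ≤ 1)
    (hsep : ∀ z ∈ S, ∀ z' ∈ S, z ≠ z' → τ ≤ |f z - f z'| ∨ τ ≤ |g z - g z'| ∨ τ ≤ |h z - h z'|)
    (hh : ∀ z ∈ S, ∀ z' ∈ S, |h z - h z'| ≤ |f z - f z'| + |g z - g z'|) :
    (S.card : ℝ) ≤ (4 / τ + 2) ^ 2 := by
  classical
  have hτ2 : (0 : ℝ) < τ / 2 := by linarith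
  -- the cells
  have hmaps : ∀ z ∈ S, (⌊f z / (τ / 2)⌋, ⌊g z / (τ / 2)⌋) ∈
      Finset.Icc ⌊-(2 / τ)⌋ ⌊2 / τ⌋ ×ˢ Finset.Icc ⌊-(2 / τ)⌋ ⌊2 / τ⌋ := by
    intro z hz
    have key : ∀ t : ℝ, |t| ≤ 1 → ⌊t / (τ / 2)⌋ ∈ Finset.Icc ⌊-(2 / τ)⌋ ⌊2 / τ⌋ := by
      intro t ht
      obtain ⟨h1, h2⟩ := abs_le.1 ht
      have e : t / (τ / 2) = t * (2 / τ) := by
        field_simp
      have hp : (0 : ℝ) < 2 / τ := by positivity
      rw [Finset.mem_Icc, e]
      constructor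
      · exact Int.floor_le_floor (by nlinarith)
      · exact Int.floor_le_floor (by nlinarith)
    rw [Finset.mem_product]
    exact ⟨key _ (hf z hz), key _ (hg z hz)⟩
  have hinj : Set.InjOn (fun z => (⌊f z / (τ / 2)⌋, ⌊g z / (τ / 2)⌋)) (S : Set ι) := by
    intro z hz z' hz' he
    by_contra hne
    obtain ⟨e1, e2⟩ := Prod.mk.inj he
    have key : ∀ s t : ℝ, ⌊s / (τ / 2)⌋ = ⌊t / (τ / 2)⌋ → |s - t| < τ / 2 := by
      intro s t hst
      have h1 := Int.abs_sub_lt_one_of_floor_eq_floor hst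
      rw [← sub_div, abs_div, abs_of_pos hτ2, div_lt_one hτ2] at h1
      exact h1
    have h1 := key _ _ e1
    have h2 := key _ _ e2
    have h3 := hh z hz z' hz'
    rcases hsep z hz z' hz' hne with h | h | h <;> linarith
  have hcard := Finset.card_le_card_of_injOn _ hmaps hinj
  rw [Finset.card_product, Int.card_Icc] at hcard
  have hN : (((⌊2 / τ⌋ + 1 - ⌊-(2 / τ)⌋).toNat : ℕ) : ℝ) ≤ 4 / τ + 2 := by
    have hp : (0 : ℝ) < 2 / τ := by positivity
    have h1 : (⌊2 / τ⌋ : ℝ) ≤ 2 / τ := Int.floor_le _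
    have h2 : -(2 / τ) < (⌊-(2 / τ)⌋ : ℝ) + 1 := Int.lt_floor_add_one _
    have h3 : ⌊-(2 / τ)⌋ ≤ ⌊2 / τ⌋ := Int.floor_le_floor (by linarith)
    have h4 : (((⌊2 / τ⌋ + 1 - ⌊-(2 / τ)⌋).toNat : ℕ) : ℤ) = ⌊2 / τ⌋ + 1 - ⌊-(2 / τ)⌋ :=
      Int.toNat_of_nonneg (by omega)
    have h5 : (((⌊2 / τ⌋ + 1 - ⌊-(2 / τ)⌋).toNat : ℕ) : ℝ) =
        (⌊2 / τ⌋ : ℝ) + 1 - (⌊-(2 / τ)⌋ : ℝ) := by
      exact_mod_cast congrArg (Int.cast : ℤ → ℝ) h4
    rw [h5]
    have h6 : 4 / τ = 2 / τ + 2 / τ := by ring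
    rw [h6]
    linarith
  calc (S.card : ℝ) ≤ (((⌊2 / τ⌋ + 1 - ⌊-(2 / τ)⌋).toNat * (⌊2 / τ⌋ + 1 - ⌊-(2 / τ)⌋).toNat : ℕ) : ℝ) := by
        exact_mod_cast hcard
    _ = (((⌊2 / τ⌋ + 1 - ⌊-(2 / τ)⌋).toNat : ℕ) : ℝ) ^ 2 := by
        push_cast
        ring
    _ ≤ (4 / τ + 2) ^ 2 := pow_le_pow_left₀ (Nat.cast_nonneg _) hN 2

/-- the coordinate with the largest coefficient is controlled by the two others -/
theorem plane_diff {p q r s t u : ℝ} (hr : r ≠ 0) (hp : |p| ≤ |r|) (hq : |q| ≤ |r|)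
    (h : p * s + q * t + r * u = 0) : |u| ≤ |s| + |t| := by
  have hr0 : 0 < |r| := abs_pos.2 hr
  have h1 : |r| * |u| ≤ |r| * (|s| + |t|) := by
    have e : r * u = -(p * s + q * t) := by linarith
    calc |r| * |u| = |r * u| := (abs_mul _ _).symm
      _ = |p * s + q * t| := by rw [e, abs_neg]
      _ ≤ |p * s| + |q * t| := abs_add_le _ _
      _ = |p| * |s| + |q| * |t| := by rw [abs_mul, abs_mul]
      _ ≤ |r| * |s| + |r| * |t| := by
          have := mul_le_mul_of_nonneg_right hp (abs_nonneg s)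
          have := mul_le_mul_of_nonneg_right hq (abs_nonneg t)
          linarith
      _ = |r| * (|s| + |t|) := by ring
  exact le_of_mul_le_mul_left h1 hr0

theorem plane_count {ι : Type} (S : Finset ι) (x : ι → Fin 3 → ℝ) (τ : ℝ) (hτ : 0 < τ)
    (hx : ∀ z ∈ S, ∀ i, |x z i| ≤ 1)
    (hsep : ∀ z ∈ S, ∀ z' ∈ S, z ≠ z' → ∃ i, τ ≤ |x z i - x z' i|)
    (a : Fin 3 → ℝ) (ha : a ≠ 0)
    (hplane : ∀ z ∈ S, a 0 * x z 0 + a 1 * x z 1 + a 2 * x z 2 = 0) :
    (S.card : ℝ) ≤ (4 / τ + 2) ^ 2 := by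
  obtain ⟨k, -, hk⟩ := Finset.exists_max_image (Finset.univ : Finset (Fin 3)) (fun i => |a i|)
    ⟨0, Finset.mem_univ _⟩
  have hk' : ∀ i, |a i| ≤ |a k| := fun i => hk i (Finset.mem_univ i)
  have hak : a k ≠ 0 := by
    intro h
    apply ha
    funext i
    have h1 := hk' i
    rw [h, abs_zero] at h1
    exact abs_nonpos_iff.1 h1
  have hs3 : ∀ z ∈ S, ∀ z' ∈ S, z ≠ z' → τ ≤ |x z 0 - x z' 0| ∨ τ ≤ |x z 1 - x z' 1| ∨
      τ ≤ |x z 2 - x z' 2| := by
    intro z hz z' hz' hne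
    obtain ⟨i, hi⟩ := hsep z hz z' hz' hne
    fin_cases i
    · exact Or.inl hi
    · exact Or.inr (Or.inl hi)
    · exact Or.inr (Or.inr hi)
  have hd : ∀ z ∈ S, ∀ z' ∈ S, a 0 * (x z 0 - x z' 0) + a 1 * (x z 1 - x z' 1) +
      a 2 * (x z 2 - x z' 2) = 0 := by
    intro z hz z' hz'
    have h1 := hplane z hz
    have h2 := hplane z' hz'
    linarith
  have h0 := hk' 0
  have h1 := hk' 1
  have h2 := hk' 2
  clear hk hk' hplane hsep
  fin_cases k
  · refine plane_core S (fun z => x z 1) (fun z => x z 2) (fun z => x z 0) τ hτ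
      (fun z hz => hx z hz 1) (fun z hz => hx z hz 2) (fun z hz z' hz' hne => ?_)
      (fun z hz z' hz' => plane_diff hak h1 h2 ?_)
    · rcases hs3 z hz z' hz' hne with h | h | h
      · exact Or.inr (Or.inr h)
      · exact Or.inl h
      · exact Or.inr (Or.inl h)
    · have := hd z hz z' hz'
      simp only [Fin.zero_eta]
      linarith
  · refine plane_core S (fun z => x z 0) (fun z => x z 2) (fun z => x z 1) τ hτ
      (fun z hz => hx z hz 0) (fun z hz => hx z hz 2) (fun z hz z' hz' hne => ?_)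
      (fun z hz z' hz' => plane_diff hak h0 h2 ?_)
    · rcases hs3 z hz z' hz' hne with h | h | h
      · exact Or.inl h
      · exact Or.inr (Or.inr h)
      · exact Or.inr (Or.inl h)
    · have := hd z hz z' hz'
      simp only [Fin.mk_one]
      linarith
  · refine plane_core S (fun z => x z 0) (fun z => x z 1) (fun z => x z 2) τ hτ
      (fun z hz => hx z hz 0) (fun z hz => hx z hz 1) (fun z hz z' hz' hne => hs3 z hz z' hz' hne)
      (fun z hz z' hz' => plane_diff hak h0 h1 ?_)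
    have := hd z hz z' hz'
    simp only [Fin.reduceFinMk]
    linarith

theorem plane_or_det {ι : Type} (S : Finset ι) (x : ι → Fin 3 → ℝ) :
    (∃ a : Fin 3 → ℝ, a ≠ 0 ∧ ∀ z ∈ S, a 0 * x z 0 + a 1 * x z 1 + a 2 * x z 2 = 0) ∨
    ∃ u v w, u ∈ S ∧ v ∈ S ∧ w ∈ S ∧ Matrix.det ![x u, x v, x w] ≠ 0 := by
  by_cases hdet : ∃ u v w, u ∈ S ∧ v ∈ S ∧ w ∈ S ∧ Matrix.det ![x u, x v, x w] ≠ 0
  · exact Or.inr hdet
  left
  have hz0 : ∀ u v w, u ∈ S → v ∈ S → w ∈ S →
      (x v 1 * x w 2 - x v 2 * x w 1) * x u 0 + (x v 2 * x w 0 - x v 0 * x w 2) * x u 1 +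
        (x v 0 * x w 1 - x v 1 * x w 0) * x u 2 = 0 := by
    intro u v w hu hv hw
    by_contra h
    apply hdet
    refine ⟨u, v, w, hu, hv, hw, ?_⟩
    intro h1
    apply h
    have h2 : Matrix.det (![x u, x v, x w] : Matrix (Fin 3) (Fin 3) ℝ) =
        (x v 1 * x w 2 - x v 2 * x w 1) * x u 0 + (x v 2 * x w 0 - x v 0 * x w 2) * x u 1 +
        (x v 0 * x w 1 - x v 1 * x w 0) * x u 2 := by
      refine (Matrix.det_fin_three _).trans ?_
      show x u 0 * x v 1 * x w 2 - x u 0 * x v 2 * x w 1 - x u 1 * x v 0 * x w 2 +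
        x u 1 * x v 2 * x w 0 + x u 2 * x v 0 * x w 1 - x u 2 * x v 1 * x w 0 = _
      ring
    rw [← h2]
    exact h1
  by_cases hcr : ∃ v ∈ S, ∃ w ∈ S, (![x v 1 * x w 2 - x v 2 * x w 1,
      x v 2 * x w 0 - x v 0 * x w 2, x v 0 * x w 1 - x v 1 * x w 0] : Fin 3 → ℝ) ≠ 0
  · obtain ⟨v, hv, w, hw, hne⟩ := hcr
    refine ⟨_, hne, fun z hz => ?_⟩
    have := hz0 z v w hz hv hw
    simpa using this
  · have hc : ∀ v ∈ S, ∀ w ∈ S, x v 1 * x w 2 - x v 2 * x w 1 = 0 ∧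
        x v 2 * x w 0 - x v 0 * x w 2 = 0 ∧ x v 0 * x w 1 - x v 1 * x w 0 = 0 := by
      intro v hv w hw
      by_contra h
      apply hcr
      refine ⟨v, hv, w, hw, fun h1 => h ?_⟩
      have e0 := congrFun h1 0
      have e1 := congrFun h1 1
      have e2 := congrFun h1 2
      simp only [Matrix.cons_val_zero, Matrix.cons_val_one, Matrix.cons_val_two,
        Matrix.tail_cons, Matrix.head_cons, Pi.zero_apply] at e0 e1 e2
      exact ⟨e0, e1, e2⟩
    by_cases hall : ∀ z ∈ S, x z = 0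
    · refine ⟨![1, 0, 0], fun h => ?_, fun z hz => ?_⟩
      · have := congrFun h 0
        simp at this
      · rw [hall z hz]
        simp
    · push Not at hall
      obtain ⟨u, hu, hne⟩ := hall
      by_cases h01 : x u 0 = 0 ∧ x u 1 = 0
      · have h2 : x u 2 ≠ 0 := by
          intro h2
          apply hne
          funext i
          fin_cases i
          · exact h01.1
          · exact h01.2
          · exact h2
        refine ⟨![x u 2, 0, 0], fun h => ?_, fun z hz => ?_⟩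
        · have := congrFun h 0
          simp at this
          exact h2 this
        · have h3 := (hc u hu z hz).2.1
          rw [h01.1] at h3
          simp only [Matrix.cons_val_zero, Matrix.cons_val_one, Matrix.cons_val_two,
            Matrix.tail_cons, Matrix.head_cons]
          linarith
      · refine ⟨![-x u 1, x u 0, 0], fun h => ?_, fun z hz => ?_⟩
        · apply h01
          have e0 := congrFun h 0
          have e1 := congrFun h 1
          simp at e0 e1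
          exact ⟨e1, e0⟩
        · have h3 := (hc u hu z hz).2.2
          simp only [Matrix.cons_val_zero, Matrix.cons_val_one, Matrix.cons_val_two,
            Matrix.tail_cons, Matrix.head_cons]
          linarith

end Pool.Agent.H587.PE
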