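import Mathlib
set_option autoImplicit false
namespace Pool.Agent.H587.PE
open MeasureTheory

open Classical in
/-- Slicing inequality for measures given by gauge functions in the plane. -/
theorem slice (g : ENNReal → ENNReal) (r₀ : ENNReal) (hr₀ : 0 < r₀) (hg : ∀ a b, a ≤ b → b ≤ r₀ → g a ≤ g b)
    (E : Set (ℝ × ℝ))
    (hE : ∀ᵐ a ∂(volume.restrict (Set.Icc (0 : ℝ) 1)), Measure.mkMetric g {b : ℝ | (a, b) ∈ E} = ⊤) :
    Measure.mkMetric (fun r => r * g r) E = ⊤ := by
  by_contra hne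
  obtain ⟨A, hA⟩ : ∃ A, A = Measure.mkMetric (fun r => r * g r) E + 1 := ⟨_, rfl⟩
  have hA1 : Measure.mkMetric (fun r => r * g r) E < A := by
    rw [hA]
    exact ENNReal.lt_add_right hne one_ne_zero
  have hAtop : A ≠ ⊤ := by
    rw [hA]
    exact ENNReal.add_ne_top.2 ⟨hne, ENNReal.one_ne_top⟩
  -- the covers
  have hcov : ∀ r : ENNReal, 0 < r → ∃ t : ℕ → Set (ℝ × ℝ), E ⊆ ⋃ n, t n ∧
      (∀ n, Metric.ediam (t n) ≤ r) ∧
      ∑' n, ⨆ _ : (t n).Nonempty, (Metric.ediam (t n) * g (Metric.ediam (t n))) < A := by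
    intro r hr
    have h1 := hA1
    rw [Measure.mkMetric_apply] at h1
    have h2 := (le_iSup₂ (f := fun (r : ENNReal) (_ : 0 < r) =>
      ⨅ (t : ℕ → Set (ℝ × ℝ)) (_ : E ⊆ Set.iUnion t) (_ : ∀ n, Metric.ediam (t n) ≤ r),
        ∑' n, ⨆ _ : (t n).Nonempty, (Metric.ediam (t n) * g (Metric.ediam (t n)))) r hr).trans_lt h1
    rw [iInf_lt_iff] at h2
    obtain ⟨t, h2⟩ := h2
    rw [iInf_lt_iff] at h2
    obtain ⟨h3, h2⟩ := h2
    rw [iInf_lt_iff] at h2
    obtain ⟨h4, h2⟩ := h2
    exact ⟨t, h3, h4, h2⟩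
  have hρ : ∀ j : ℕ, 0 < min (((j : ENNReal) + 1)⁻¹) r₀ := by
    intro j
    refine lt_min ?_ hr₀
    exact ENNReal.inv_pos.2 (ENNReal.add_ne_top.2 ⟨ENNReal.natCast_ne_top j, ENNReal.one_ne_top⟩)
  choose t ht1 ht2 ht3 using fun j : ℕ => hcov _ (hρ j)
  obtain ⟨x, hx⟩ : ∃ x : ℕ → ℕ → ℝ × ℝ, ∀ j n, (t j n).Nonempty → x j n ∈ t j n := by
    refine ⟨fun j n => if h : (t j n).Nonempty then h.some else 0, fun j n h => ?_⟩
    show (if h : (t j n).Nonempty then h.some else 0) ∈ t j n
    rw [dif_pos h]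
    exact h.some_mem
  set G : ℕ → ℕ → ENNReal := fun j n => if (t j n).Nonempty then g (Metric.ediam (t j n)) else 0
    with hG
  set h : ℕ → ℝ → ENNReal := fun j a => ∑' n,
    (Metric.closedEBall (x j n).1 (Metric.ediam (t j n))).indicator (fun _ => G j n) a with hh
  have hball : ∀ (a : ℝ) (d : ENNReal), MeasurableSet (Metric.closedEBall a d) :=
    fun a d => Metric.isClosed_closedEBall.measurableSet
  have hmeas : ∀ j, Measurable (h j) := by
    intro j
    exact Measurable.tsum fun n => measurable_const.indicator (hball _ _)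
  have hint : ∀ j, ∫⁻ a in Set.Icc (0 : ℝ) 1, h j a ≤ 2 * A := by
    intro j
    refine (setLIntegral_le_lintegral _ _).trans ?_
    rw [hh]
    show ∫⁻ a, ∑' n, (Metric.closedEBall (x j n).1 (Metric.ediam (t j n))).indicator
      (fun _ => G j n) a ≤ 2 * A
    rw [lintegral_tsum fun n => (measurable_const.indicator (hball _ _)).aemeasurable]
    have h1 : ∀ n, ∫⁻ a, (Metric.closedEBall (x j n).1 (Metric.ediam (t j n))).indicator
        (fun _ => G j n) a = 2 * ⨆ _ : (t j n).Nonempty,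
          (Metric.ediam (t j n) * g (Metric.ediam (t j n))) := by
      intro n
      rw [lintegral_indicator_const (hball _ _), Real.volume_closedEBall, iSup_eq_if]
      show (if (t j n).Nonempty then g (Metric.ediam (t j n)) else 0) *
        (2 * Metric.ediam (t j n)) = _
      split_ifs with h2
      · ring
      · simp
    rw [tsum_congr h1, ENNReal.tsum_mul_left]
    exact mul_le_mul_right (ht3 j).le 2
  have hfat : ∫⁻ a in Set.Icc (0 : ℝ) 1, Filter.liminf (fun j => h j a) Filter.atTop ≤ 2 * A := by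
    refine (lintegral_liminf_le hmeas).trans ?_
    refine Filter.liminf_le_of_le (h := fun b hb => ?_)
    obtain ⟨j, hj⟩ := hb.exists
    exact hj.trans (hint j)
  have hfin : ∀ᵐ a ∂(volume.restrict (Set.Icc (0 : ℝ) 1)),
      Filter.liminf (fun j => h j a) Filter.atTop < ⊤ := by
    refine ae_lt_top (Measurable.liminf hmeas) ?_
    exact (hfat.trans_lt (ENNReal.mul_lt_top ENNReal.ofNat_lt_top hAtop.lt_top)).ne
  have hneb : (ae (volume.restrict (Set.Icc (0 : ℝ) 1))).NeBot := by
    rw [ae_neBot]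
    intro h0
    have h1 : volume.restrict (Set.Icc (0 : ℝ) 1) Set.univ = 0 := by
      rw [h0]
      rfl
    rw [Measure.restrict_apply_univ, Real.volume_Icc] at h1
    simp at h1
  obtain ⟨a, ha1, ha2⟩ := (hE.and hfin).exists
  obtain ⟨L, hL⟩ : ∃ L, L = Filter.liminf (fun j => h j a) Filter.atTop := ⟨_, rfl⟩
  rw [← hL] at ha2
  have hfreq : ∃ᶠ j in Filter.atTop, h j a < L + 1 := by
    refine Filter.frequently_lt_of_liminf_lt (h := ?_)
    rw [← hL]
    exact ENNReal.lt_add_right ha2.ne one_ne_zero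
  have hle : Measure.mkMetric g {b : ℝ | (a, b) ∈ E} ≤ L + 1 := by
    rw [Measure.mkMetric_apply]
    refine iSup₂_le fun r hr => ?_
    obtain ⟨M, hM⟩ := ENNReal.exists_inv_nat_lt hr.ne'
    obtain ⟨j, hj1, hj2⟩ := (hfreq.and_eventually (Filter.eventually_ge_atTop M)).exists
    have hjr : ((j : ENNReal) + 1)⁻¹ ≤ r := by
      refine le_trans ?_ hM.le
      refine ENNReal.inv_le_inv.2 ?_
      have h1 : (M : ENNReal) ≤ j := by exact_mod_cast hj2
      exact h1.trans le_self_add
    have hsl : ∀ n, Metric.ediam {b : ℝ | (a, b) ∈ t j n} ≤ Metric.ediam (t j n) := by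
      intro n
      refine Metric.ediam_le fun b hb b' hb' => ?_
      refine le_trans ?_ (Metric.edist_le_ediam_of_mem hb hb')
      rw [Prod.edist_eq]
      exact le_max_right _ _
    refine iInf_le_of_le (fun n => {b : ℝ | (a, b) ∈ t j n}) (iInf_le_of_le ?_
      (iInf_le_of_le ?_ ?_))
    · intro b hb
      have h1 := ht1 j hb
      rw [Set.mem_iUnion] at h1 ⊢
      exact h1
    · intro n
      exact (hsl n).trans ((ht2 j n).trans ((min_le_left _ _).trans hjr))
    · refine le_trans ?_ hj1.le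
      refine ENNReal.tsum_le_tsum fun n => ?_
      refine iSup_le fun hne' => ?_
      obtain ⟨b, hb⟩ := hne'
      have hb' : (a, b) ∈ t j n := hb
      have hnon : (t j n).Nonempty := ⟨_, hb'⟩
      have hmem : a ∈ Metric.closedEBall (x j n).1 (Metric.ediam (t j n)) := by
        rw [Metric.mem_closedEBall]
        refine le_trans ?_ (Metric.edist_le_ediam_of_mem hb' (hx j n hnon))
        rw [Prod.edist_eq]
        exact le_max_left _ _
      rw [Set.indicator_of_mem hmem]
      show g (Metric.ediam {b : ℝ | (a, b) ∈ t j n}) ≤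
        if (t j n).Nonempty then g (Metric.ediam (t j n)) else 0
      rw [if_pos hnon]
      exact hg _ _ (hsl n) ((ht2 j n).trans (min_le_right _ _))
  rw [ha1] at hle
  exact absurd hle (not_le.2 (ENNReal.add_lt_top.2 ⟨ha2, ENNReal.one_lt_top⟩))

end Pool.Agent.H587.PE
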