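import Mathlib
set_option autoImplicit false
namespace Pool.Agent.H587.PE
/-- skew coordinates of an integer vector -/
noncomputable def sk (α β : ℝ) (z : ℤ × ℤ × ℤ) : Fin 3 → ℝ := ![(z.1 : ℝ), z.1 * α - z.2.1, z.1 * β - z.2.2]

namespace PEVOLaux

/-- the integer determinant -/
def d3 (a b c : ℤ × ℤ × ℤ) : ℤ :=
  a.1 * (b.2.1 * c.2.2 - b.2.2 * c.2.1) - a.2.1 * (b.1 * c.2.2 - b.2.2 * c.1) +
    a.2.2 * (b.1 * c.2.1 - b.2.1 * c.1)

theorem det_sk (α β : ℝ) (u v w : ℤ × ℤ × ℤ) :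
    Matrix.det ![sk α β u, sk α β v, sk α β w] = (d3 u v w : ℝ) := by
  show Matrix.det (Matrix.of ![sk α β u, sk α β v, sk α β w]) = (d3 u v w : ℝ)
  rw [Matrix.det_fin_three]
  simp [sk, d3]
  ring

/-- the coordinate vector -/
def iv (z : ℤ × ℤ × ℤ) : Fin 3 → ℤ := ![z.1, z.2.1, z.2.2]

/-- the matrix with the columns `u, v, w` -/
def mat (u v w : ℤ × ℤ × ℤ) : Matrix (Fin 3) (Fin 3) ℤ :=
  !![u.1, v.1, w.1; u.2.1, v.2.1, w.2.1; u.2.2, v.2.2, w.2.2]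

theorem det_mat (u v w : ℤ × ℤ × ℤ) : (mat u v w).det = d3 u v w := by
  rw [mat, Matrix.det_fin_three]
  simp [d3]
  ring

theorem mulVec_mat (u v w : ℤ × ℤ × ℤ) (s : Fin 3 → ℤ) :
    (mat u v w).mulVec s = ![s 0 * u.1 + s 1 * v.1 + s 2 * w.1,
      s 0 * u.2.1 + s 1 * v.2.1 + s 2 * w.2.1, s 0 * u.2.2 + s 1 * v.2.2 + s 2 * w.2.2] := by
  funext i
  fin_cases i <;> simp [mat, Matrix.mulVec, dotProduct, Fin.sum_univ_three] <;> ring

theorem card_quot {u v w : ℤ × ℤ × ℤ} (h : d3 u v w ≠ 0) :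
    Nat.card ((Fin 3 → ℤ) ⧸ LinearMap.range (Matrix.toLin' (mat u v w))) = (d3 u v w).natAbs := by
  have hinj : Function.Injective (Matrix.toLin' (mat u v w)) := by
    rw [← LinearMap.ker_eq_bot, LinearMap.ker_eq_bot']
    intro s hs
    by_contra hne
    apply h
    rw [← det_mat]
    exact Matrix.exists_mulVec_eq_zero_iff.1 ⟨s, hne, by rw [Matrix.toLin'_apply] at hs; exact hs⟩
  have h1 := Submodule.natAbs_det_equiv (LinearMap.range (Matrix.toLin' (mat u v w)))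
    (LinearEquiv.ofInjective (Matrix.toLin' (mat u v w)) hinj)
  rw [← h1, ← det_mat, ← LinearMap.det_toLin']
  rfl

theorem main_count (S : Finset (ℤ × ℤ × ℤ)) (u v w : ℤ × ℤ × ℤ) (hne : d3 u v w ≠ 0)
    (h1 : ∀ z ∈ S, |d3 z v w| ≤ |d3 u v w|) (h2 : ∀ z ∈ S, |d3 u z w| ≤ |d3 u v w|)
    (h3 : ∀ z ∈ S, |d3 u v z| ≤ |d3 u v w|) :
    S.card ≤ 27 * (d3 u v w).natAbs := by
  obtain ⟨N, hN⟩ : ∃ N : Submodule ℤ (Fin 3 → ℤ), N = LinearMap.range (Matrix.toLin' (mat u v w)) :=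
    ⟨_, rfl⟩
  have hcard : Nat.card ((Fin 3 → ℤ) ⧸ N) = (d3 u v w).natAbs := by rw [hN]; exact card_quot hne
  have hfin : Finite ((Fin 3 → ℤ) ⧸ N) := by
    apply Nat.finite_of_card_ne_zero
    rw [hcard]
    exact Int.natAbs_ne_zero.2 hne
  have hFt : Fintype ((Fin 3 → ℤ) ⧸ N) := Fintype.ofFinite _
  obtain ⟨D, hD⟩ : ∃ D : ℤ, D = |d3 u v w| := ⟨_, rfl⟩
  have hD0 : 0 < D := by rw [hD]; exact abs_pos.2 hne
  rw [← hD] at h1 h2 h3
  have hdiv : ∀ x : ℤ, |x| ≤ D → x / D ∈ Finset.Icc (-1 : ℤ) 1 := by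
    intro x hx
    rw [Finset.mem_Icc]
    have hx' := abs_le.1 hx
    constructor
    · rw [Int.le_ediv_iff_mul_le hD0]
      linarith
    · have : x / D < 2 := by
        rw [Int.ediv_lt_iff_lt_mul hD0]
        linarith
      omega
  have hlt : ∀ x y : ℤ, x / D = y / D → |x - y| < D := by
    intro x y hxy
    have e1 := Int.emod_add_mul_ediv x D
    have e2 := Int.emod_add_mul_ediv y D
    have a1 := Int.emod_nonneg x hD0.ne'
    have a2 := Int.emod_lt_of_pos x hD0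
    have b1 := Int.emod_nonneg y hD0.ne'
    have b2 := Int.emod_lt_of_pos y hD0
    rw [hxy] at e1
    rw [abs_lt]
    constructor <;> linarith
  have hzero : ∀ s x y : ℤ, x - y = s * d3 u v w → x / D = y / D → s = 0 := by
    intro s x y h4 h5
    have h6 := hlt x y h5
    rw [h4, abs_mul, ← hD] at h6
    by_contra h7
    have h8 : 1 ≤ |s| := Int.one_le_abs h7
    nlinarith
  classical
  obtain ⟨T, hT⟩ : ∃ T : Finset (((Fin 3 → ℤ) ⧸ N) × ℤ × ℤ × ℤ),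
      T = Finset.univ ×ˢ (Finset.Icc (-1 : ℤ) 1 ×ˢ (Finset.Icc (-1 : ℤ) 1 ×ˢ Finset.Icc (-1 : ℤ) 1)) :=
    ⟨_, rfl⟩
  have hTc : T.card = 27 * (d3 u v w).natAbs := by
    have e : (1 + 1 - (-1) : ℤ).toNat = 3 := by decide
    rw [hT, Finset.card_product, Finset.card_product, Finset.card_product, Int.card_Icc,
      Finset.card_univ, ← Nat.card_eq_fintype_card, hcard, e]
    ring
  rw [← hTc]
  refine Finset.card_le_card_of_injOn
    (fun z => (N.mkQ (iv z), d3 z v w / D, d3 u z w / D, d3 u v z / D)) ?_ ?_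
  · intro z hz
    have hz' : z ∈ S := hz
    show (N.mkQ (iv z), d3 z v w / D, d3 u z w / D, d3 u v z / D) ∈ (T : Set _)
    rw [Finset.mem_coe, hT, Finset.mem_product, Finset.mem_product, Finset.mem_product]
    exact ⟨Finset.mem_univ _, hdiv _ (h1 z hz'), hdiv _ (h2 z hz'), hdiv _ (h3 z hz')⟩
  · intro z hz z' hz' heq
    simp only [Prod.mk.injEq] at heq
    obtain ⟨e0, e1, e2, e3⟩ := heq
    have e4 : iv z - iv z' ∈ N := by
      rw [← Submodule.ker_mkQ N, LinearMap.mem_ker, map_sub, e0, sub_self]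
    rw [hN, LinearMap.mem_range] at e4
    obtain ⟨s, hs⟩ := e4
    rw [Matrix.toLin'_apply, mulVec_mat] at hs
    have c0 := congrFun hs 0
    have c1 := congrFun hs 1
    have c2 := congrFun hs 2
    simp [iv] at c0 c1 c2
    have d0 : d3 z v w - d3 z' v w = s 0 * d3 u v w := by
      unfold d3
      linear_combination (-(v.2.1 * w.2.2 - v.2.2 * w.2.1)) * c0 +
        (v.1 * w.2.2 - v.2.2 * w.1) * c1 - (v.1 * w.2.1 - v.2.1 * w.1) * c2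
    have d1 : d3 u z w - d3 u z' w = s 1 * d3 u v w := by
      unfold d3
      linear_combination (u.2.1 * w.2.2 - u.2.2 * w.2.1) * c0 -
        (u.1 * w.2.2 - u.2.2 * w.1) * c1 + (u.1 * w.2.1 - u.2.1 * w.1) * c2
    have d2 : d3 u v z - d3 u v z' = s 2 * d3 u v w := by
      unfold d3
      linear_combination (-(u.2.1 * v.2.2 - u.2.2 * v.2.1)) * c0 +
        (u.1 * v.2.2 - u.2.2 * v.1) * c1 - (u.1 * v.2.1 - u.2.1 * v.1) * c2
    have s0 := hzero _ _ _ d0 e1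
    have s1 := hzero _ _ _ d1 e2
    have s2 := hzero _ _ _ d2 e3
    rw [s0, s1, s2] at c0 c1 c2
    apply Prod.ext
    · linarith
    · apply Prod.ext
      · linarith
      · linarith

theorem det_bound {Q r₁ r₂ : ℝ} (hQ : 0 < Q) (h₁ : 0 < r₁) (h₂ : 0 < r₂) {a b c : Fin 3 → ℝ}
    (ha : |a 0| ≤ Q ∧ |a 1| ≤ r₁ ∧ |a 2| ≤ r₂) (hb : |b 0| ≤ Q ∧ |b 1| ≤ r₁ ∧ |b 2| ≤ r₂)
    (hc : |c 0| ≤ Q ∧ |c 1| ≤ r₁ ∧ |c 2| ≤ r₂) :
    |Matrix.det ![a, b, c]| ≤ 6 * (Q * r₁ * r₂) := by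
  have key : ∀ x y z : ℝ, |x| ≤ Q → |y| ≤ r₁ → |z| ≤ r₂ → |x * y * z| ≤ Q * r₁ * r₂ := by
    intro x y z hx hy hz
    rw [abs_mul, abs_mul]
    exact mul_le_mul (mul_le_mul hx hy (abs_nonneg _) hQ.le) hz (abs_nonneg _) (by positivity)
  have e : Matrix.det ![a, b, c] = a 0 * b 1 * c 2 - a 0 * c 1 * b 2 - b 0 * a 1 * c 2 +
      c 0 * a 1 * b 2 + b 0 * c 1 * a 2 - c 0 * b 1 * a 2 := by
    show Matrix.det (Matrix.of ![a, b, c]) = _
    rw [Matrix.det_fin_three]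
    simp
    ring
  have k1 := abs_le.1 (key _ _ _ ha.1 hb.2.1 hc.2.2)
  have k2 := abs_le.1 (key _ _ _ ha.1 hc.2.1 hb.2.2)
  have k3 := abs_le.1 (key _ _ _ hb.1 ha.2.1 hc.2.2)
  have k4 := abs_le.1 (key _ _ _ hc.1 ha.2.1 hb.2.2)
  have k5 := abs_le.1 (key _ _ _ hb.1 hc.2.1 ha.2.2)
  have k6 := abs_le.1 (key _ _ _ hc.1 hb.2.1 ha.2.2)
  rw [e, abs_le]
  constructor <;> linarith [k1.1, k1.2, k2.1, k2.2, k3.1, k3.2, k4.1, k4.2, k5.1, k5.2, k6.1, k6.2]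

end PEVOLaux

open PEVOLaux in
theorem vol_count (α β Q r₁ r₂ : ℝ) (hQ : 0 < Q) (h₁ : 0 < r₁) (h₂ : 0 < r₂) (S : Finset (ℤ × ℤ × ℤ))
    (hS : ∀ z ∈ S, |(z.1 : ℝ)| ≤ Q ∧ |z.1 * α - z.2.1| ≤ r₁ ∧ |z.1 * β - z.2.2| ≤ r₂)
    (u v w : ℤ × ℤ × ℤ) (hu : u ∈ S) (hv : v ∈ S) (hw : w ∈ S)
    (hdet : Matrix.det ![sk α β u, sk α β v, sk α β w] ≠ 0) :
    (S.card : ℝ) ≤ 512 * (Q * r₁ * r₂) := by
  obtain ⟨t, ht, hmax⟩ := Finset.exists_max_image (S ×ˢ (S ×ˢ S))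
    (fun t : (ℤ × ℤ × ℤ) × (ℤ × ℤ × ℤ) × (ℤ × ℤ × ℤ) => |d3 t.1 t.2.1 t.2.2|)
    ⟨(u, v, w), by
      rw [Finset.mem_product, Finset.mem_product]
      exact ⟨hu, hv, hw⟩⟩
  obtain ⟨a, b, c⟩ := t
  rw [Finset.mem_product, Finset.mem_product] at ht
  obtain ⟨ha, hb, hc⟩ := ht
  simp only at ha hb hc hmax
  have hm : ∀ x ∈ S, ∀ y ∈ S, ∀ z ∈ S, |d3 x y z| ≤ |d3 a b c| := by
    intro x hx y hy z hz
    exact hmax (x, y, z) (by
      rw [Finset.mem_product, Finset.mem_product]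
      exact ⟨hx, hy, hz⟩)
  have hne : d3 a b c ≠ 0 := by
    intro h0
    have h1 := hm u hu v hv w hw
    rw [h0, abs_zero] at h1
    apply hdet
    rw [det_sk, abs_eq_zero.1 (le_antisymm h1 (abs_nonneg _)), Int.cast_zero]
  have h4 := main_count S a b c hne (fun z hz => hm z hz b hb c hc) (fun z hz => hm a ha z hz c hc)
    (fun z hz => hm a ha b hb z hz)
  have h5 : ((d3 a b c).natAbs : ℝ) ≤ 6 * (Q * r₁ * r₂) := by
    have h6 : ((d3 a b c).natAbs : ℝ) = |(d3 a b c : ℝ)| := by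
      rw [Nat.cast_natAbs, Int.cast_abs]
    rw [h6, ← det_sk α β]
    have hz : ∀ z ∈ S, |sk α β z 0| ≤ Q ∧ |sk α β z 1| ≤ r₁ ∧ |sk α β z 2| ≤ r₂ := by
      intro z hz
      exact hS z hz
    exact det_bound hQ h₁ h₂ (hz a ha) (hz b hb) (hz c hc)
  have h7 : (S.card : ℝ) ≤ 27 * ((d3 a b c).natAbs : ℝ) := by exact_mod_cast h4
  have h8 : 0 < Q * r₁ * r₂ := by positivity
  linarith

end Pool.Agent.H587.PE
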